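import Pool.Agent.Beam.Count

set_option autoImplicit false

namespace Pool.Agent.Results.MP_d3e990_an.AtMostFive

open Filter Topology

/-- `z` is an even one-troughed wave for the parameters `c`, `xi`: a `C⁴` function `ℝ → ℝ` with
`z'''' + c² z'' + (z + 1)⁺ - xi (z + 1)⁻ - 1 = 0` on `ℝ` (where `u⁺ = max u 0` and
`u⁻ = max (-u) 0`), with `z(t), z'(t) → 0` as `t → ±∞`, which is even and takes the value `-1` at
exactly two points. -/
structure IsEvenOneTroughedWave (c xi : ℝ) (z : ℝ → ℝ) : Prop where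
  smooth : ContDiff ℝ 4 z
  equation : ∀ t, iteratedDeriv 4 z t + c ^ 2 * iteratedDeriv 2 z t
    + max (z t + 1) 0 - xi * max (-(z t + 1)) 0 - 1 = 0
  lim_top : Tendsto z atTop (𝓝 0)
  lim_bot : Tendsto z atBot (𝓝 0)
  lim_deriv_top : Tendsto (deriv z) atTop (𝓝 0)
  lim_deriv_bot : Tendsto (deriv z) atBot (𝓝 0)
  even : ∀ t, z (-t) = z t
  two_points : {t | z t = -1}.ncard = 2

/-- For every `c ∈ (0, √2)` and every `xi ∈ (0, c⁴/4)` there are at most five even one-troughed
waves. -/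
theorem result : ∀ c xi : ℝ, 0 < c → c < Real.sqrt 2 → 0 < xi → xi < c ^ 4 / 4 →
    {z : ℝ → ℝ | IsEvenOneTroughedWave c xi z}.encard ≤ 5 := by
  intro c xi h1 h2 h3 h4
  have h := Pool.Agent.Beam.at_most_five h1 h2 h3 h4
  refine le_trans (Set.encard_le_encard ?_) h
  intro z hz
  exact ⟨hz.smooth, hz.equation, hz.lim_top, hz.lim_bot, hz.lim_deriv_top, hz.lim_deriv_bot,
    hz.even, hz.two_points⟩

end Pool.Agent.Results.MP_d3e990_an.AtMostFive
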